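import Pool.Agent.Y214.CY.Stm

/-!
# Job CY-PRIME: a place whose ramification index and residue degree are prime to three
-/

set_option autoImplicit false

namespace Pool.Agent.Y149.CY

open Module Pool.Agent.Y214.CY IsDedekindDomain Ideal

section

variable {R K : Type} [CommRing R] [IsDedekindDomain R] [Field K] [Algebra R K] [IsFractionRing R K]

/-- the ideal of the elements of valuation less than one in the valuation ring -/
def mI (w : Valuation K (WithZero (Multiplicative ℤ))) : Ideal w.integer where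
  carrier := {x | w (x : K) < 1}
  add_mem' := by
    intro a b ha hb
    exact lt_of_le_of_lt (w.map_add _ _) (max_lt ha hb)
  zero_mem' := by
    show w ((0 : w.integer) : K) < 1
    simp
  smul_mem' := by
    intro c x hx
    show w ((c * x : w.integer) : K) < 1
    push_cast
    rw [map_mul]
    exact mul_lt_one_of_nonneg_of_lt_one_right c.2 zero_le' hx

lemma mem_mI (w : Valuation K (WithZero (Multiplicative ℤ))) (x : w.integer) :
    x ∈ mI w ↔ w (x : K) < 1 := Iff.rfl

instance mI_max (w : Valuation K (WithZero (Multiplicative ℤ))) : (mI w).IsMaximal := by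
  rw [Ideal.isMaximal_iff]
  refine ⟨?_, ?_⟩
  · rw [mem_mI]
    simp
  · intro J x _ hx hxJ
    rw [mem_mI] at hx
    have h1 : w (x : K) = 1 := le_antisymm x.2 (not_lt.mp hx)
    have h0 : (x : K) ≠ 0 := by
      intro h
      rw [h, map_zero] at h1
      exact zero_ne_one h1
    have h2 : (x : K)⁻¹ ∈ w.integer := by
      show w (x : K)⁻¹ ≤ 1
      rw [map_inv₀, h1, inv_one]
    have h3 : (⟨(x : K)⁻¹, h2⟩ : w.integer) * x = 1 := by
      apply Subtype.ext
      show (x : K)⁻¹ * (x : K) = 1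
      exact inv_mul_cancel₀ h0
    rw [← h3]
    exact J.mul_mem_left _ hxJ

noncomputable instance mIField (w : Valuation K (WithZero (Multiplicative ℤ))) :
    Field (w.integer ⧸ mI w) := Ideal.Quotient.field _

/-- the inclusion of the Dedekind domain in the valuation ring -/
def inc (v : HeightOneSpectrum R) : R →+* (v.valuation K).integer where
  toFun a := ⟨algebraMap R K a, v.valuation_le_one a⟩
  map_one' := Subtype.ext (map_one _)
  map_zero' := Subtype.ext (map_zero _)
  map_mul' a b := Subtype.ext (map_mul _ a b)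
  map_add' a b := Subtype.ext (map_add _ a b)

lemma inc_mem (v : HeightOneSpectrum R) (a : R) :
    inc (K := K) v a ∈ mI (v.valuation K) ↔ a ∈ v.asIdeal := by
  rw [mem_mI]
  exact v.valuation_lt_one_iff_mem a

/-- the residue fields agree -/
noncomputable def resHom (v : HeightOneSpectrum R) :
    (R ⧸ v.asIdeal) →+* ((v.valuation K).integer ⧸ mI (v.valuation K)) :=
  Ideal.quotientMap _ (inc v) (fun a ha => by
    rw [Ideal.mem_comap]
    exact (inc_mem v a).mpr ha)

lemma resHom_mk (v : HeightOneSpectrum R) (a : R) :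
    resHom (K := K) v (Ideal.Quotient.mk _ a) = Ideal.Quotient.mk _ (inc v a) := by
  unfold resHom
  rw [Ideal.quotientMap_mk]

lemma resHom_bij (v : HeightOneSpectrum R) : Function.Bijective (resHom (K := K) v) := by
  constructor
  · rw [injective_iff_map_eq_zero]
    intro a ha
    obtain ⟨a, rfl⟩ := Ideal.Quotient.mk_surjective a
    rw [resHom_mk, Ideal.Quotient.eq_zero_iff_mem] at ha
    rw [Ideal.Quotient.eq_zero_iff_mem]
    exact (inc_mem v a).mp ha
  · intro y
    obtain ⟨x, rfl⟩ := Ideal.Quotient.mk_surjective y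
    obtain ⟨a, ha⟩ := HeightOneSpectrum.exists_valuation_sub_lt_of_integer v (x := (x : K)) x.2 1
    refine ⟨Ideal.Quotient.mk _ a, ?_⟩
    rw [resHom_mk, Ideal.Quotient.eq, mem_mI]
    simpa [inc] using ha

/-- the residue fields agree -/
noncomputable def resEquiv (v : HeightOneSpectrum R) :
    (R ⧸ v.asIdeal) ≃+* ((v.valuation K).integer ⧸ mI (v.valuation K)) :=
  RingEquiv.ofBijective _ (resHom_bij v)

end

section padic

variable {p : ℕ} [Fact p.Prime]

lemma exists_unit (x : ℚ_[p]) (hx : x ≠ 0) :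
    ∃ u : ℤ_[p]ˣ, x = (p : ℚ_[p]) ^ x.valuation * ((u : ℤ_[p]) : ℚ_[p]) := by
  have hp : (p : ℚ_[p]) ≠ 0 := by
    exact_mod_cast (Fact.out : p.Prime).ne_zero
  have h1 : ‖(p : ℚ_[p]) ^ (-x.valuation) * x‖ = 1 := by
    rw [norm_mul, Padic.norm_eq_zpow_neg_valuation hx, Padic.norm_p_zpow, neg_neg, ← zpow_add₀,
      add_neg_cancel, zpow_zero]
    exact_mod_cast (Fact.out : p.Prime).ne_zero
  refine ⟨PadicInt.mkUnits h1, ?_⟩
  have h2 : (((PadicInt.mkUnits h1 : ℤ_[p]ˣ) : ℤ_[p]) : ℚ_[p]) = (p : ℚ_[p]) ^ (-x.valuation) * x :=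
    PadicInt.mkUnits_eq h1
  rw [h2, ← mul_assoc, ← zpow_add₀ hp, add_neg_cancel, zpow_zero, one_mul]

lemma exists_nat (z : ℤ_[p]) : ∃ (n : ℕ) (y : ℤ_[p]), z = n + p * y ∧
    PadicInt.toZMod z = (n : ZMod p) := by
  have h1 : z - ((PadicInt.toZMod z).val : ℤ_[p]) ∈ RingHom.ker (PadicInt.toZMod (p := p)) := by
    rw [RingHom.mem_ker, map_sub, map_natCast, ZMod.natCast_val, ZMod.cast_id', id, sub_self]
  rw [PadicInt.ker_toZMod, PadicInt.maximalIdeal_eq_span_p, Ideal.mem_span_singleton] at h1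
  obtain ⟨y, hy⟩ := h1
  refine ⟨(PadicInt.toZMod z).val, y, ?_, ?_⟩
  · rw [← hy]; ring
  · rw [ZMod.natCast_val, ZMod.cast_id', id]

theorem core (K : Type) [Field K] [Algebra ℚ_[p] K] [Algebra ℤ_[p] K]
    [IsScalarTower ℤ_[p] ℚ_[p] K] [FiniteDimensional ℚ_[p] K] (hK : ¬ 3 ∣ finrank ℚ_[p] K) :
    ∃ (w : Valuation K (WithZero (Multiplicative ℤ))) (e : ℕ) (κ : Type) (_ : Field κ)
    (_ : Algebra (ZMod p) κ) (_ : FiniteDimensional (ZMod p) κ) (red : w.integer →+* κ),
    ¬ 3 ∣ e ∧ ¬ 3 ∣ finrank (ZMod p) κ ∧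
    (∀ x : ℚ_[p], x ≠ 0 → w (algebraMap ℚ_[p] K x) =
      ((Multiplicative.ofAdd (-(e : ℤ) * x.valuation) : Multiplicative ℤ) :
        WithZero (Multiplicative ℤ))) ∧
    (∀ x : w.integer, red x = 0 ↔ w (x : K) < 1) ∧
    (∀ (z : ℤ_[p]) (x : w.integer), (x : K) = algebraMap ℚ_[p] K (z : ℚ_[p]) →
      red x = algebraMap (ZMod p) κ (PadicInt.toZMod z)) := by
  classical
  have hpp : p.Prime := Fact.out
  let S := integralClosure ℤ_[p] K
  haveI : Algebra.IsSeparable ℚ_[p] K := inferInstance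
  haveI : IsDedekindDomain S := integralClosure.isDedekindDomain ℤ_[p] ℚ_[p] K
  haveI : IsFractionRing S K := integralClosure.isFractionRing_of_finite_extension ℚ_[p] K
  haveI : Module.Finite ℤ_[p] S := IsIntegralClosure.finite ℤ_[p] ℚ_[p] K S
  haveI : IsTorsionFree ℤ_[p] K := by
    rw [Module.isTorsionFree_iff_algebraMap_injective]
    rw [IsScalarTower.algebraMap_eq ℤ_[p] ℚ_[p] K]
    exact (algebraMap ℚ_[p] K).injective.comp (IsFractionRing.injective ℤ_[p] ℚ_[p])
  set m := IsLocalRing.maximalIdeal ℤ_[p] with hm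
  have hm0 : m ≠ ⊥ := IsDiscreteValuationRing.not_a_field ℤ_[p]
  have hsum := Ideal.sum_ramification_inertia (R := ℤ_[p]) S ℚ_[p] K hm0
  obtain ⟨P, hP, hPef⟩ : ∃ P ∈ IsDedekindDomain.primesOverFinset m S, ¬ 3 ∣ ramificationIdx' m P * inertiaDeg' m P := by
    by_contra hcon
    push Not at hcon
    apply hK
    rw [← hsum]
    exact Finset.dvd_sum hcon
  have hPo := (IsDedekindDomain.mem_primesOverFinset_iff hm0 S).mp hP
  haveI hPp : P.IsPrime := hPo.1
  haveI hPl : P.LiesOver m := hPo.2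
  have hP0 : P ≠ ⊥ := Ideal.ne_bot_of_mem_primesOver hm0 hPo
  have he3 : ¬ 3 ∣ ramificationIdx' m P := fun h => hPef (h.mul_right _)
  have hf3 : ¬ 3 ∣ inertiaDeg' m P := fun h => hPef (h.mul_left _)
  let v : HeightOneSpectrum S := ⟨P, hPp, hP0⟩
  -- the valuation of `p`
  have hpS : (p : S) ≠ 0 := by
    haveI : CharZero K := charZero_of_injective_algebraMap (algebraMap ℚ_[p] K).injective
    intro h
    have h1 : ((p : ℕ) : K) = 0 := by
      rw [← map_natCast (algebraMap S K), h, map_zero]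
    exact hpp.ne_zero (by exact_mod_cast h1)
  have hwp : v.valuation K (p : K) = WithZero.exp (-(ramificationIdx' m P : ℤ)) := by
    have h1 : (p : K) = algebraMap S K (p : S) := (map_natCast _ _).symm
    have h2 : Ideal.map (algebraMap ℤ_[p] S) m = Ideal.span {(p : S)} := by
      rw [hm, PadicInt.maximalIdeal_eq_span_p, Ideal.map_span, Set.image_singleton, map_natCast]
    have h3 : Ideal.map (algebraMap ℤ_[p] S) m ≠ ⊥ := by
      rw [h2, Ne, Ideal.span_singleton_eq_bot]
      exact hpS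
    rw [h1, HeightOneSpectrum.valuation_of_algebraMap,
      HeightOneSpectrum.intValuation_eq_exp_neg_multiplicity _ hpS,
      Ideal.IsDedekindDomain.ramificationIdx'_eq_multiplicity h3 hPp, h2]
  -- units
  have hle : ∀ z : ℤ_[p], v.valuation K (algebraMap ℚ_[p] K (z : ℚ_[p])) ≤ 1 := by
    intro z
    have h1 : algebraMap ℚ_[p] K (z : ℚ_[p]) = algebraMap S K (algebraMap ℤ_[p] S z) := by
      rw [← IsScalarTower.algebraMap_apply, IsScalarTower.algebraMap_apply ℤ_[p] ℚ_[p] K]
      rfl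
    rw [h1]
    exact v.valuation_le_one _
  have hunit : ∀ u : ℤ_[p]ˣ, v.valuation K (algebraMap ℚ_[p] K ((u : ℤ_[p]) : ℚ_[p])) = 1 := by
    intro u
    apply le_antisymm (hle _)
    have h1 := hle ((u⁻¹ : ℤ_[p]ˣ) : ℤ_[p])
    have h2 : v.valuation K (algebraMap ℚ_[p] K ((u : ℤ_[p]) : ℚ_[p])) *
        v.valuation K (algebraMap ℚ_[p] K (((u⁻¹ : ℤ_[p]ˣ) : ℤ_[p]) : ℚ_[p])) = 1 := by
      rw [← map_mul, ← map_mul, ← PadicInt.coe_mul, Units.mul_inv, PadicInt.coe_one, map_one, map_one]
    calc (1 : WithZero (Multiplicative ℤ)) = _ := h2.symm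
      _ ≤ v.valuation K (algebraMap ℚ_[p] K ((u : ℤ_[p]) : ℚ_[p])) * 1 := by gcongr
      _ = _ := mul_one _
  have hepos : ramificationIdx' m P ≠ 0 := fun h => he3 (h ▸ dvd_zero 3)
  have hplt : v.valuation K (p : K) < 1 := by
    rw [hwp, ← WithZero.exp_zero, WithZero.exp_lt_exp]
    omega
  -- the residue field
  have hpk : ((p : ℕ) : (v.valuation K).integer ⧸ mI (v.valuation K)) = 0 := by
    rw [← map_natCast (Ideal.Quotient.mk (mI (v.valuation K))), Ideal.Quotient.eq_zero_iff_mem,
      mem_mI]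
    simpa using hplt
  haveI : CharP ((v.valuation K).integer ⧸ mI (v.valuation K)) p :=
    (CharP.charP_iff_prime_eq_zero hpp).mpr hpk
  letI alg : Algebra (ZMod p) ((v.valuation K).integer ⧸ mI (v.valuation K)) :=
    (ZMod.castHom (dvd_refl p) _).toAlgebra
  have hred : ∀ (z : ℤ_[p]) (x : (v.valuation K).integer),
      (x : K) = algebraMap ℚ_[p] K (z : ℚ_[p]) →
      Ideal.Quotient.mk (mI (v.valuation K)) x =
        algebraMap (ZMod p) ((v.valuation K).integer ⧸ mI (v.valuation K)) (PadicInt.toZMod z) := by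
    intro z x hx
    obtain ⟨n, y, h1, h2⟩ := exists_nat z
    rw [h2, map_natCast, ← map_natCast (Ideal.Quotient.mk (mI (v.valuation K))), Ideal.Quotient.eq,
      mem_mI]
    have h3 : (((x - (n : (v.valuation K).integer)) : (v.valuation K).integer) : K) =
        (p : K) * algebraMap ℚ_[p] K (y : ℚ_[p]) := by
      have h4 : (z : ℚ_[p]) = (n : ℚ_[p]) + (p : ℚ_[p]) * (y : ℚ_[p]) := by
        rw [h1, PadicInt.coe_add, PadicInt.coe_mul, PadicInt.coe_natCast, PadicInt.coe_natCast]
      have h5 : (((x - (n : (v.valuation K).integer)) : (v.valuation K).integer) : K) =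
          (x : K) - (n : K) := rfl
      rw [h5, hx, h4, map_add, map_mul, map_natCast, map_natCast]
      ring
    rw [h3, map_mul]
    exact mul_lt_one_of_nonneg_of_lt_one_left zero_le' hplt (hle y)
  have hfin : finrank (ZMod p) ((v.valuation K).integer ⧸ mI (v.valuation K)) = inertiaDeg' m P := by
    rw [Ideal.inertiaDeg'_algebraMap]
    symm
    refine Algebra.finrank_eq_of_equiv_equiv (PadicInt.residueField (p := p)) (resEquiv (K := K) v) ?_
    apply Ideal.Quotient.ringHom_ext
    ext z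
    have h1 : (PadicInt.residueField (p := p)) (Ideal.Quotient.mk (IsLocalRing.maximalIdeal ℤ_[p]) z) =
        PadicInt.toZMod z := by
      rw [PadicInt.toZMod_eq_residueField_comp_residue]
      rfl
    have h2 := hred z (inc v (algebraMap ℤ_[p] S z)) (by
      show algebraMap S K (algebraMap ℤ_[p] S z) = _
      rw [← IsScalarTower.algebraMap_apply, IsScalarTower.algebraMap_apply ℤ_[p] ℚ_[p] K]
      rfl)
    show algebraMap (ZMod p) _ ((PadicInt.residueField (p := p))
      (Ideal.Quotient.mk (IsLocalRing.maximalIdeal ℤ_[p]) z)) =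
      resHom (K := K) v (Ideal.Quotient.mk _ (algebraMap ℤ_[p] S z))
    rw [h1, resHom_mk, h2]
  haveI : FiniteDimensional (ZMod p) ((v.valuation K).integer ⧸ mI (v.valuation K)) := by
    apply Module.finite_of_finrank_pos
    rw [hfin]
    exact Nat.pos_of_ne_zero fun h => hf3 (h ▸ dvd_zero 3)
  refine ⟨v.valuation K, ramificationIdx' m P, (v.valuation K).integer ⧸ mI (v.valuation K),
    inferInstance, alg, inferInstance, Ideal.Quotient.mk _, he3, ?_, ?_, ?_, hred⟩
  · rw [hfin]
    exact hf3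
  · intro x hx
    obtain ⟨u, hu⟩ := exists_unit x hx
    have h1 : v.valuation K (algebraMap ℚ_[p] K x) =
        v.valuation K (p : K) ^ x.valuation := by
      conv_lhs => rw [hu]
      rw [map_mul, map_mul, hunit, mul_one, map_zpow₀, map_zpow₀, map_natCast]
    rw [h1, hwp, ← WithZero.exp_zsmul]
    show WithZero.exp _ = WithZero.exp _
    congr 1
    rw [smul_eq_mul]
    ring
  · intro x
    rw [Ideal.Quotient.eq_zero_iff_mem, mem_mI]

end padic

theorem t_PRIME : S_PRIME := by
  intro p _ K _ _ _ hK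
  letI : Algebra ℤ_[p] K := ((algebraMap ℚ_[p] K).comp (algebraMap ℤ_[p] ℚ_[p])).toAlgebra
  haveI : IsScalarTower ℤ_[p] ℚ_[p] K := IsScalarTower.of_algebraMap_eq fun _ => rfl
  exact core K hK

end Pool.Agent.Y149.CY
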